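import Mathlib

namespace Pool.Agent.Results.MP_d14d1f_al.Counterexample

open SemidirectProduct

/-- The base group: four copies of the cyclic group of order 105. -/
abbrev N : Type := Fin 4 → Multiplicative (ZMod 105)

/-- The symmetric group on four points. -/
abbrev Q : Type := Equiv.Perm (Fin 4)

/-- The permutational wreath product of the cyclic group of order 105 by `S_4`. -/
abbrev W : Type := N ⋊[(mulAutArrow : Q →* MulAut N)] Q

/-- The vector with the given entries, as an element of the base group. -/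
def vec (a b c d : ZMod 105) : N := fun i => Multiplicative.ofAdd ((![a, b, c, d] : Fin 4 → ZMod 105) i)

/-- The element generating the class. -/
def c : W := ⟨vec 15 15 21 70, Equiv.swap 0 1⟩

theorem act_apply (σ : Q) (v : N) (i : Fin 4) : (mulAutArrow σ v : N) i = v (σ⁻¹ i) := rfl

theorem c_sq : c ^ 2 = inl (vec 30 30 42 35) := by
  rw [pow_two]
  apply SemidirectProduct.ext
  · funext i
    change vec 15 15 21 70 i * (mulAutArrow (Equiv.swap (0 : Fin 4) 1) (vec 15 15 21 70) : N) i = _
    rw [act_apply]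
    revert i
    decide
  · change Equiv.swap (0 : Fin 4) 1 * Equiv.swap (0 : Fin 4) 1 = 1
    exact Equiv.swap_mul_self 0 1

theorem c_pow_70 : c ^ 70 = inl (vec 0 0 0 70) := by
  rw [show (70 : ℕ) = 2 * 35 from rfl, pow_mul, c_sq, ← map_pow]
  congr 1
  funext i
  revert i
  decide

theorem c_pow_42 : c ^ 42 = inl (vec 0 0 42 0) := by
  rw [show (42 : ℕ) = 2 * 21 from rfl, pow_mul, c_sq, ← map_pow]
  congr 1
  funext i
  revert i
  decide

theorem c_pow_30 : c ^ 30 = inl (vec 30 30 0 0) := by
  rw [show (30 : ℕ) = 2 * 15 from rfl, pow_mul, c_sq, ← map_pow]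
  congr 1
  funext i
  revert i
  decide

/-- An element of the base commutes with everything lying over permutations fixing it. -/
theorem commute_inl {a : N} {z : W} (h : (mulAutArrow z.right a : N) = a) :
    Commute (inl a : W) z := by
  apply SemidirectProduct.ext
  · change a * (mulAutArrow (1 : Q) z.left : N) = z.left * (mulAutArrow z.right a : N)
    rw [h, map_one, mul_comm]
    rfl
  · change 1 * z.right = z.right * 1
    simp

theorem cover : ∀ g : Q,
    (∀ i, vec 0 0 0 70 ((g * Equiv.swap 0 1 * g⁻¹ : Q)⁻¹ i) = vec 0 0 0 70 i) ∨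
    (∀ i, vec 0 0 42 0 ((g * Equiv.swap 0 1 * g⁻¹ : Q)⁻¹ i) = vec 0 0 42 0 i) ∨
    (∀ i, vec 30 30 0 0 ((g * Equiv.swap 0 1 * g⁻¹ : Q)⁻¹ i) = vec 30 30 0 0 i) := by
  decide

theorem not_central {a : N} {σ : Q} {i : Fin 4} (h : a (σ⁻¹ i) ≠ a i) :
    (inl a : W) ∉ Subgroup.center W := by
  intro hc
  rw [Subgroup.mem_center_iff] at hc
  have h1 := hc (inr σ)
  have h2 : (inr σ * inl a : W) = inl (mulAutArrow σ a : N) * inr σ := by
    rw [inl_aut]
    simp [mul_assoc]
  rw [h2] at h1
  have h3 := mul_right_cancel h1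
  have h4 := inl_injective h3
  have h5 := congrFun h4 i
  rw [act_apply] at h5
  exact h h5

/-- The subgroup generated by the class. -/
abbrev K : Subgroup W := Subgroup.normalClosure {c}

theorem c_mem : c ∈ K := Subgroup.subset_normalClosure rfl

theorem conj_inl_mem {a : N} (σ : Q) (h : (inl a : W) ∈ K) : (inl (mulAutArrow σ a : N) : W) ∈ K := by
  rw [inl_aut, map_inv]
  exact Subgroup.normalClosure_normal.conj_mem _ h _

theorem mem3 : (inl (vec 0 0 0 70) : W) ∈ K := by
  rw [← c_pow_70]; exact K.pow_mem c_mem _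

theorem mem5 : (inl (vec 0 0 42 0) : W) ∈ K := by
  rw [← c_pow_42]; exact K.pow_mem c_mem _

theorem mem7 : (inl (vec 30 30 0 0) : W) ∈ K := by
  rw [← c_pow_30]; exact K.pow_mem c_mem _

/-- A generator of the last coordinate of the base. -/
theorem mem_last : (inl (vec 0 0 0 1) : W) ∈ K := by
  have h5 : (inl (vec 0 0 0 42) : W) ∈ K := by
    have := conj_inl_mem (Equiv.swap 2 3) mem5
    convert this using 2
    funext i
    rw [act_apply]
    revert i
    decide
  have h7a : (inl (vec 30 0 0 30) : W) ∈ K := by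
    have := conj_inl_mem (Equiv.swap 1 3) mem7
    convert this using 2
    funext i
    rw [act_apply]
    revert i
    decide
  have h7b : (inl (vec 0 30 0 30) : W) ∈ K := by
    have := conj_inl_mem (Equiv.swap 0 3) mem7
    convert this using 2
    funext i
    rw [act_apply]
    revert i
    decide
  have h7 : (inl (vec 0 0 0 60) : W) ∈ K := by
    have h : (inl (vec 30 0 0 30) : W) * inl (vec 0 30 0 30) * (inl (vec 30 30 0 0))⁻¹ ∈ K :=
      K.mul_mem (K.mul_mem h7a h7b) (K.inv_mem mem7)
    rw [← map_mul, ← map_inv, ← map_mul] at h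
    convert h using 2
    funext i
    revert i
    decide
  have h : (inl (vec 0 0 0 70) : W) ^ 1 * inl (vec 0 0 0 42) ^ 3 * inl (vec 0 0 0 60) ^ 2 ∈ K :=
    K.mul_mem (K.mul_mem (K.pow_mem mem3 _) (K.pow_mem h5 _)) (K.pow_mem h7 _)
  rw [← map_pow, ← map_pow, ← map_pow, ← map_mul, ← map_mul] at h
  convert h using 2
  funext i
  revert i
  decide

theorem mem_single (i : Fin 4) (x : Multiplicative (ZMod 105)) :
    (inl (Pi.mulSingle i x) : W) ∈ K := by
  have h1 : (inl (vec 0 0 0 1) : W) ^ (x.toAdd.val) ∈ K := K.pow_mem mem_last _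
  rw [← map_pow] at h1
  have h2 := conj_inl_mem (Equiv.swap i 3) h1
  convert h2 using 2
  funext j
  rw [act_apply]
  have h3 : ∀ k : Fin 4, vec 0 0 0 1 k =
      (Pi.mulSingle (3 : Fin 4) (Multiplicative.ofAdd (1 : ZMod 105)) : N) k := by
    decide
  have h4 : (Equiv.swap i 3)⁻¹ j = 3 ↔ j = i := by
    rw [Equiv.Perm.inv_eq_iff_eq]
    simp
  have hx : (Multiplicative.ofAdd (1 : ZMod 105)) ^ (x.toAdd.val) = x := by
    rw [← ofAdd_nsmul]
    simp
  rw [Pi.pow_apply, h3]
  by_cases hj : j = i
  · subst hj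
    rw [h4.mpr rfl, Pi.mulSingle_eq_same, Pi.mulSingle_eq_same, hx]
  · rw [Pi.mulSingle_eq_of_ne hj, Pi.mulSingle_eq_of_ne (fun h => hj (h4.mp h)), one_pow]

theorem mem_inl (v : N) : (inl v : W) ∈ K := by
  have h : v ∈ K.comap (inl : N →* W) := by
    rw [← Finset.univ_prod_mulSingle v]
    exact Subgroup.prod_mem _ fun i _ => mem_single i (v i)
  exact h

theorem mem_swap01 : (inr (Equiv.swap 0 1) : W) ∈ K := by
  have h : (inl (vec 15 15 21 70) : W)⁻¹ * c ∈ K := K.mul_mem (K.inv_mem (mem_inl _)) c_mem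
  have h2 : (inl (vec 15 15 21 70) : W)⁻¹ * c = inr (Equiv.swap 0 1) := by
    rw [inv_mul_eq_iff_eq_mul]
    exact SemidirectProduct.mk_eq_inl_mul_inr _ _
  rwa [h2] at h

theorem mem_inr (σ : Q) : (inr σ : W) ∈ K := by
  have hcl : Subgroup.closure {τ : Q | τ.IsSwap} ≤ K.comap (inr : Q →* W) := by
    rw [Subgroup.closure_le]
    intro τ hτ
    change (inr τ : W) ∈ K
    obtain ⟨x, y, hxy, rfl⟩ := hτ
    have hc : IsConj (Equiv.swap (0 : Fin 4) 1) (Equiv.swap x y) :=
      Equiv.Perm.isConj_swap (by decide) hxy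
    obtain ⟨g, hg⟩ := isConj_iff.mp hc
    rw [← hg, map_mul, map_mul, map_inv]
    exact Subgroup.normalClosure_normal.conj_mem _ mem_swap01 _
  rw [Equiv.Perm.closure_isSwap] at hcl
  exact hcl (Subgroup.mem_top σ)

theorem closure_eq_top : Subgroup.closure (conjugatesOf c) = ⊤ := by
  have h : Subgroup.closure (conjugatesOf c) = K := by
    unfold K Subgroup.normalClosure Group.conjugatesOfSet
    simp
  rw [h, eq_top_iff]
  intro x _
  rw [← inl_left_mul_inr_right x]
  exact K.mul_mem (mem_inl _) (mem_inr _)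

instance : Finite W := Finite.of_equiv _ (SemidirectProduct.equivProd (φ := (mulAutArrow : Q →* MulAut N))).symm

/-- There are a finite group `G` and a conjugacy class `C` of `G` that generates `G`, and an element
`c` of `C`, such that every `z` in `C` commutes with some power of `c` that is not central. -/
theorem result :
    ∃ (G : Type) (_ : Group G) (_ : Finite G) (C : Set G),
      (∃ x : G, C = conjugatesOf x) ∧ Subgroup.closure C = ⊤ ∧
      ∃ c ∈ C, ∀ z ∈ C, ∃ k : ℤ, c ^ k * z = z * c ^ k ∧ c ^ k ∉ Subgroup.center G := by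
  refine ⟨W, inferInstance, inferInstance, conjugatesOf c, ⟨c, rfl⟩, closure_eq_top, c,
    mem_conjugatesOf_self, ?_⟩
  intro z hz
  obtain ⟨g, rfl⟩ := isConj_iff.mp (show IsConj c z from hz)
  have hr : (g * c * g⁻¹).right = g.right * Equiv.swap 0 1 * g.right⁻¹ := rfl
  rcases cover g.right with h | h | h
  · refine ⟨((70 : ℕ) : ℤ), ?_, ?_⟩
    · rw [zpow_natCast, c_pow_70]
      apply commute_inl
      funext i
      rw [act_apply, hr]
      exact h i
    · rw [zpow_natCast, c_pow_70]
      exact not_central (σ := Equiv.swap 0 3) (i := 0) (by decide)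
  · refine ⟨((42 : ℕ) : ℤ), ?_, ?_⟩
    · rw [zpow_natCast, c_pow_42]
      apply commute_inl
      funext i
      rw [act_apply, hr]
      exact h i
    · rw [zpow_natCast, c_pow_42]
      exact not_central (σ := Equiv.swap 0 2) (i := 0) (by decide)
  · refine ⟨((30 : ℕ) : ℤ), ?_, ?_⟩
    · rw [zpow_natCast, c_pow_30]
      apply commute_inl
      funext i
      rw [act_apply, hr]
      exact h i
    · rw [zpow_natCast, c_pow_30]
      exact not_central (σ := Equiv.swap 0 2) (i := 0) (by decide)

end Pool.Agent.Results.MP_d14d1f_al.Counterexample
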