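import Mathlib

namespace Pool.Agent.Results.MP_d14d1f_al.TwoPrimes

variable {G : Type*} [Group G]

/-- A conjugacy class that generates the group is not covered by two proper subgroups. -/
theorem not_covered (x : G) (hgen : Subgroup.closure (conjugatesOf x) = ⊤) (H K : Subgroup G)
    (hH : H ≠ ⊤) (hK : K ≠ ⊤) : ∃ z ∈ conjugatesOf x, z ∉ H ∧ z ∉ K := by
  by_contra hcon
  push Not at hcon
  have hconj : ∀ z ∈ conjugatesOf x, ∀ g : G, g * z * g⁻¹ ∈ conjugatesOf x := by
    intro z hz g
    have hz' : IsConj x z := hz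
    exact hz'.trans (isConj_iff.mpr ⟨g, rfl⟩)
  obtain ⟨z0, hz0, hz0H⟩ : ∃ z ∈ conjugatesOf x, z ∉ H := by
    by_contra h
    push Not at h
    apply hH
    rw [eq_top_iff, ← hgen, Subgroup.closure_le]
    exact h
  set M := Subgroup.closure (conjugatesOf x \ (H : Set G)) with hM
  have hMK : M ≤ K := by
    rw [hM, Subgroup.closure_le]
    rintro z ⟨hz, hzH⟩
    exact hcon z hz hzH
  have key : ∀ z ∈ conjugatesOf x, ∀ y ∈ M, z * y * z⁻¹ ∈ M := by
    intro z hz y hy
    by_cases hzH : z ∈ H
    · have hle : M ≤ M.comap (MulAut.conj z).toMonoidHom := by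
        rw [hM, Subgroup.closure_le]
        rintro w ⟨hw, hwH⟩
        change z * w * z⁻¹ ∈ Subgroup.closure (conjugatesOf x \ (H : Set G))
        apply Subgroup.subset_closure
        refine ⟨hconj w hw z, ?_⟩
        intro hmem
        apply hwH
        have h2 : z⁻¹ * (z * w * z⁻¹) * z ∈ H := H.mul_mem (H.mul_mem (H.inv_mem hzH) hmem) hzH
        have h3 : z⁻¹ * (z * w * z⁻¹) * z = w := by group
        rwa [h3] at h2
      exact hle hy
    · have hzM : z ∈ M := Subgroup.subset_closure ⟨hz, hzH⟩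
      exact M.mul_mem (M.mul_mem hzM hy) (M.inv_mem hzM)
  have hxinv : ∀ z ∈ conjugatesOf x, ∀ y ∈ M, z⁻¹ * y * z ∈ M := by
    intro z hz y hy
    by_cases hzH : z ∈ H
    · have hle : M ≤ M.comap (MulAut.conj z⁻¹).toMonoidHom := by
        rw [hM, Subgroup.closure_le]
        rintro w ⟨hw, hwH⟩
        change z⁻¹ * w * z⁻¹⁻¹ ∈ Subgroup.closure (conjugatesOf x \ (H : Set G))
        apply Subgroup.subset_closure
        refine ⟨hconj w hw z⁻¹, ?_⟩
        intro hmem
        apply hwH
        have h2 : z * (z⁻¹ * w * z⁻¹⁻¹) * z⁻¹ ∈ H := H.mul_mem (H.mul_mem hzH hmem) (H.inv_mem hzH)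
        have h3 : z * (z⁻¹ * w * z⁻¹⁻¹) * z⁻¹ = w := by group
        rwa [h3] at h2
      have := hle hy
      change z⁻¹ * y * z⁻¹⁻¹ ∈ M at this
      rwa [inv_inv] at this
    · have hzM : z ∈ M := Subgroup.subset_closure ⟨hz, hzH⟩
      exact M.mul_mem (M.mul_mem (M.inv_mem hzM) hy) hzM
  have hall : ∀ g : G, ∀ y ∈ M, g * y * g⁻¹ ∈ M := by
    intro g
    have hg : g ∈ Subgroup.closure (conjugatesOf x) := by rw [hgen]; exact Subgroup.mem_top g
    induction hg using Subgroup.closure_induction'' with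
    | one => intro y hy; simpa using hy
    | mem z hz => exact key z hz
    | inv_mem z hz => intro y hy; rw [inv_inv]; exact hxinv z hz y hy
    | mul a b _ _ ha hb =>
      intro y hy
      have h := ha _ (hb y hy)
      have h3 : a * (b * y * b⁻¹) * a⁻¹ = a * b * y * (a * b)⁻¹ := by group
      rwa [h3] at h
  apply hK
  rw [eq_top_iff, ← hgen]
  refine le_trans ?_ hMK
  rw [Subgroup.closure_le]
  intro z hz
  have hz0M : z0 ∈ M := Subgroup.subset_closure ⟨hz0, hz0H⟩
  have h1 : IsConj z0 z := (show IsConj x z0 from hz0).symm.trans (show IsConj x z from hz)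
  obtain ⟨g, hg⟩ := isConj_iff.mp h1
  rw [← hg]
  exact hall g z0 hz0M

/-- If `C` is a conjugacy class generating `G`, if `c` is in `C` and some power `c ^ n` with `n`
positive and divisible by at most two primes is central, then some `z` in `C` witnesses
centrality of all powers of `c`. -/
theorem result {G : Type*} [Group G] (C : Set G) (hC : ∃ x : G, C = conjugatesOf x)
    (hgen : Subgroup.closure C = ⊤) (c : G) (hc : c ∈ C) (n : ℕ) (hn : n ≠ 0)
    (hprimes : n.primeFactors.card ≤ 2) (hcn : c ^ n ∈ Subgroup.center G) :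
    ∃ z ∈ C, ∀ k : ℤ, c ^ k ∈ Subgroup.center G ↔ c ^ k * z = z * c ^ k := by
  obtain ⟨x, rfl⟩ := hC
  set d := orderOf (QuotientGroup.mk c : G ⧸ Subgroup.center G) with hd
  have hmem : ∀ k : ℤ, c ^ k ∈ Subgroup.center G ↔ (d : ℤ) ∣ k := by
    intro k
    rw [hd, orderOf_dvd_iff_zpow_eq_one, ← QuotientGroup.mk_zpow, QuotientGroup.eq_one_iff]
  have hdn : d ∣ n := by
    have h : (d : ℤ) ∣ (n : ℤ) := (hmem n).mp (by rw [zpow_natCast]; exact hcn)
    exact_mod_cast h
  have hd0 : d ≠ 0 := fun h => hn (by rw [h] at hdn; exact zero_dvd_iff.mp hdn)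
  have hsub : d.primeFactors ⊆ n.primeFactors := Nat.primeFactors_mono hdn hn
  -- each prime divisor gives a proper centraliser
  let Hp : ℕ → Subgroup G := fun p => Subgroup.centralizer {c ^ (d / p)}
  have hproper : ∀ p ∈ d.primeFactors, Hp p ≠ ⊤ := by
    intro p hp htop
    have hpp : p.Prime := Nat.prime_of_mem_primeFactors hp
    have hpd : p ∣ d := Nat.dvd_of_mem_primeFactors hp
    have hcen : c ^ (d / p) ∈ Subgroup.center G := by
      rw [Subgroup.mem_center_iff]
      intro g
      have hg : g ∈ Hp p := by rw [htop]; exact Subgroup.mem_top g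
      have := Subgroup.mem_centralizer_singleton_iff.mp hg
      exact this
    have h2 : (d : ℤ) ∣ ((d / p : ℕ) : ℤ) := (hmem _).mp (by rw [zpow_natCast]; exact hcen)
    have h3 : d ∣ d / p := by exact_mod_cast h2
    have h4 : d / p < d := Nat.div_lt_self (Nat.pos_of_ne_zero hd0) hpp.one_lt
    have h5 : 0 < d / p := Nat.div_pos (Nat.le_of_dvd (Nat.pos_of_ne_zero hd0) hpd) hpp.pos
    exact absurd (Nat.le_of_dvd h5 h3) (not_le.mpr h4)
  -- a class element outside all these centralisers is a witness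
  have hwit : ∀ z ∈ conjugatesOf x, (∀ p ∈ d.primeFactors, z ∉ Hp p) →
      ∃ z ∈ conjugatesOf x, ∀ k : ℤ, c ^ k ∈ Subgroup.center G ↔ c ^ k * z = z * c ^ k := by
    intro z hz hzp
    refine ⟨z, hz, fun k => ⟨fun h => ((Subgroup.mem_center_iff.mp h) z).symm, fun h => ?_⟩⟩
    by_contra hnc
    rw [hmem] at hnc
    -- the gcd of `k` and `d` is a proper divisor of `d`
    set g := Int.gcd k d with hg
    have hgd : g ∣ d := by
      have : (g : ℤ) ∣ (d : ℤ) := Int.gcd_dvd_right ..
      exact_mod_cast this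
    have hgk : (g : ℤ) ∣ k := Int.gcd_dvd_left ..
    have hgne : g ≠ d := by
      intro h'
      apply hnc
      rw [← h']
      exact hgk
    have hcomm_d : Commute (c ^ (d : ℤ)) z := by
      have h1 : c ^ (d : ℤ) ∈ Subgroup.center G := (hmem _).mpr (dvd_refl _)
      exact ((Subgroup.mem_center_iff.mp h1) z).symm
    have hcomm_g : Commute (c ^ (g : ℤ)) z := by
      have hb : (g : ℤ) = k * Int.gcdA k d + d * Int.gcdB k d := Int.gcd_eq_gcd_ab k d
      rw [hb, zpow_add, zpow_mul, zpow_mul]
      exact ((show Commute (c ^ k) z from h).zpow_left _).mul_left (hcomm_d.zpow_left _)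
    obtain ⟨m, hm⟩ := hgd
    have hm1 : m ≠ 1 := by
      rintro rfl
      apply hgne
      rw [hm, mul_one]
    obtain ⟨p, hpp, hpm⟩ := Nat.exists_prime_and_dvd hm1
    have hpd : p ∣ d := by rw [hm]; exact Dvd.dvd.mul_left hpm g
    have hpF : p ∈ d.primeFactors := Nat.mem_primeFactors.mpr ⟨hpp, hpd, hd0⟩
    apply hzp p hpF
    obtain ⟨m', hm'⟩ := hpm
    have hdp : d / p = g * m' := by
      rw [hm, hm']
      apply Nat.div_eq_of_eq_mul_left hpp.pos
      ring
    have : Commute (c ^ (d / p)) z := by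
      rw [hdp, pow_mul]
      have h1 : Commute (c ^ g) z := by
        have := hcomm_g
        rwa [zpow_natCast] at this
      exact h1.pow_left m'
    rw [Subgroup.mem_centralizer_singleton_iff]
    exact this.symm
  -- at most two primes
  have hcard : d.primeFactors.card ≤ 2 := le_trans (Finset.card_le_card hsub) hprimes
  have hcases : d.primeFactors.card = 0 ∨ d.primeFactors.card = 1 ∨ d.primeFactors.card = 2 := by
    omega
  rcases hcases with h0 | h1 | h2
  · refine hwit c hc ?_
    rw [Finset.card_eq_zero] at h0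
    rw [h0]
    intro p hp
    simp at hp
  · obtain ⟨p, hp⟩ := Finset.card_eq_one.mp h1
    have hpF : p ∈ d.primeFactors := by rw [hp]; simp
    obtain ⟨z, hz, hz1, -⟩ := not_covered x hgen (Hp p) (Hp p) (hproper p hpF) (hproper p hpF)
    refine hwit z hz ?_
    rw [hp]
    intro q hq
    rw [Finset.mem_singleton] at hq
    rw [hq]
    exact hz1
  · obtain ⟨p, q, hpq, hp⟩ := Finset.card_eq_two.mp h2
    have hpF : p ∈ d.primeFactors := by rw [hp]; simp
    have hqF : q ∈ d.primeFactors := by rw [hp]; simp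
    obtain ⟨z, hz, hz1, hz2⟩ := not_covered x hgen (Hp p) (Hp q) (hproper p hpF) (hproper q hqF)
    refine hwit z hz ?_
    rw [hp]
    intro r hr
    rw [Finset.mem_insert, Finset.mem_singleton] at hr
    rcases hr with hr | hr
    · rw [hr]; exact hz1
    · rw [hr]; exact hz2

end Pool.Agent.Results.MP_d14d1f_al.TwoPrimes
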